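import Pool.Agent.Helper43.BL.Fin
import Pool.Agent.Helper14.AT.Fin

/-!
Project BL (MP_b8862a_ag): the main theorem of project AT together with the blocks of orthogonal type with three Hodge numbers.
-/

set_option linter.unusedSectionVars false

open Matrix Module GH

namespace MH

variable {n : Type} [Fintype n] [DecidableEq n]
variable {w : ℤ} {Q : Matrix n n ℚ} {S : Finset ℤ} {P : ℤ → Matrix n n ℂ}

/-- **The main theorem.** -/
theorem master43 {E E' : Set ℕ} (hE : ExP E) (hEE : E ⊆ E') (hU : FullP E') (H : IsHW w Q S P)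
    (hdom : ∀ e, IsBlk P e → 2 ≤ e.rank → ∃ σ : ℂ ≃+* ℂ,
      ThreeB w Q P e (e.map σ) ∧ (∀ d : ℕ, (∀ p, d ∣ (e.map σ * P p).rank) → d = 1) ∨
      CondP E E' w Q P e σ ∧ ((∀ d : ℕ, (∀ p, d ∣ (e.map σ * P p).rank) → d = 1) ∨
        ∀ A : Matrix n n ℚ, (∀ p, toC A * P p = P p * toC A) → ∃ c : ℚ, A = c • (1 : Matrix n n ℚ))) :
    (∀ g : GL n ℂ, InD Q S P (g : Matrix n n ℂ) → g ∈ MT S P) ∧
    (∀ g ∈ MT S P, ∀ h ∈ MT S P, InD Q S P ((g * h * g⁻¹ * h⁻¹ : GL n ℂ) : Matrix n n ℂ)) ∧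
    (SelfDual Q P → ∀ g : GL n ℂ, g ∈ MT S P ↔ InGw w Q P (g : Matrix n n ℂ)) ∧
    ∀ (ℓ : ℕ) [Fact ℓ.Prime] (ι : ℚ_[ℓ] →+* ℂ) (Γ : Subgroup (GL n ℚ_[ℓ])),
      IsGalA w Q S P (Γ.map (Matrix.GeneralLinearGroup.map ι)) →
      (∃ D : Subgroup (GL n ℚ), IsMonB Q S P D ∧ D.map (Matrix.GeneralLinearGroup.map (algebraMap ℚ ℚ_[ℓ])) ≤ Γ) ∨
      ((∀ e, IsBlk P e → 2 ≤ e.rank → ∃ σ : ℂ ≃+* ℂ, (ThreeB w Q P e (e.map σ) ∨ CondP E E' w Q P e σ) ∧
          ∀ d : ℕ, (∀ p, d ∣ (e.map σ * P p).rank) → d = 1) ∧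
        IsTateN S P (Γ.map (Matrix.GeneralLinearGroup.map ι))) →
      ∀ (a b : ℕ) (t : (Fin a ⊕ Fin b → n) → ℂ),
        IsTateTensor (Γ.map (Matrix.GeneralLinearGroup.map ι)) a b t ↔ MTfix S P a b t := by
  have hty : ∀ f, IsBlk P f → 2 ≤ f.rank → TyBN Q S P f := by
    intro f hf hf2
    obtain ⟨σ, ⟨hT, hg⟩ | ⟨hC, hg⟩⟩ := hdom f hf hf2
    · exact H.tyBN_bl43 goodL_exc hf hf2 (Or.inr ⟨σ, hT.condL H hf hg, hg⟩)
    · exact H.tyBN_atP hE hEE hU hf hf2 hC hg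
  obtain ⟨k1, k2, k3, k4⟩ := at_of_tyA H hty
  refine ⟨k1, k2, k3, fun ℓ _ ι Γ G hAB => k4 _ G ?_⟩
  rcases hAB with ⟨D, hD, hle⟩ | ⟨hg, hT⟩
  · refine Or.inl ⟨D, hD, ?_⟩
    refine le_trans (le_of_eq ?_) (Subgroup.map_mono hle)
    rw [mapC, Subgroup.map_map]
    congr 1
    ext g i j
    simp [Matrix.GeneralLinearGroup.map_apply]
  · refine Or.inr ⟨hT, fun e he r W V hVW hWV hr => ?_⟩
    have hre : e.rank = r := _root_.MH.blk_rank he hVW hWV
    obtain ⟨σ, hCT, hd⟩ := hg e he (by omega)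
    obtain ⟨S', R, hR⟩ := G.conj σ.symm
    have hnum : (fun p => (e * R p).rank) = fun p => (e.map σ * P p).rank := by
      funext p
      rw [hR.rank e he p, H.rank_symm43 he]
    have hnum' : ∀ p, (e * R p).rank = (e.map σ * P p).rank := fun p => congrFun hnum p
    have hd' : ∀ d : ℕ, (∀ p, d ∣ (e * R p).rank) → d = 1 := fun d hd' => hd d fun p => by
      rw [← hnum']
      exact hd' p
    rcases hCT with hT3 | ⟨hI, h2⟩
    · rcases hT3.condL H he hd with hD | ⟨m, t, h, hm, hO, h9, hN, hb⟩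
      · exact (G.toN.toU H hT).tyN H he hVW hWV hr hR.toIsHTw hd' (hR.domR_one43 H he hD)
      · refine (G.toN.toU H hT).full_crO43 H he hVW hWV hr hR.toIsHTw hd' hm hO ?_
        rw [hnum, hm]
        have h1 := rank_num3 H (he.aut σ) hN
        rw [rank_aut σ he.idem, hre] at h1
        exact goodL_exc m _ t h _ hN h1 (by omega) hb
    · rcases hI with ⟨hSB, hr', hI⟩ | ⟨hr', hI⟩
      · refine (G.toN.toU H hT).full_crW H he hVW hWV hr hR.toIsHTw hd' hSB ?_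
        rw [hnum, ← hre]
        exact hE.crW hr' hI h2
      · refine hU n w Q S P H _ (G.toN.toU H hT) e he r W V hVW hWV hr S' R hR.toIsHTw hd' ?_ ?_ ?_
        · rw [hnum, ← hre]
          exact h2
        · rw [hnum]
          exact hI
        · rw [← hre]
          exact hr'

end MH
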