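import Pool.Agent.Helper2.LT.Core
import Pool.Agent.Helper14.TF.CoreT
import Pool.Agent.Helper55.PG.ThreeK
import Pool.Agent.Helper2.LT.Dom
import Pool.Agent.Helper21.TF.Long
import Pool.Agent.Helper81.LT.Cls
import Pool.Agent.Helper43.LT.TypeAFin
import Pool.Agent.Helper14.LT.TypeBCD
import Pool.Agent.Helper98.LT.F4
import Pool.Agent.Helper98.LT.G2
import Pool.Agent.Helper98.LT.E8
import Pool.Agent.Helper94.LT.E6Fin
import Pool.Agent.Helper94.LT.E7Fin

/-!
Project BL (MP_b8862a_ag): the core statement for three Hodge numbers `s, h, s` outside the list `LT.Exc`, in the form used for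
blocks. The statements are copied from helper2's Helper2/LT/{Hodge,List}.lean (their imports cannot be combined with those of
Helper43/BL/Main.lean).
-/

set_option linter.unusedSectionVars false

open Matrix Module MH

attribute [local instance 100] LieRing.ofAssociativeRing

namespace LT

/-- As `MH.CoreL`, even weight `2 m`, symmetric forms only. -/
def CoreS43 (n : Type*) [Fintype n] (m : ℤ) (r : ℤ → ℕ) (S : Finset ℤ) : Prop :=
  ∀ ω : LinearMap.BilinForm ℂ (n → ℂ), ω.IsSymm → ω.Nondegenerate →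
    ∀ L : LieSubalgebra ℂ (Module.End ℂ (n → ℂ)), LieAlgebra.IsSimple ℂ L →
    (∀ W : Submodule ℂ (n → ℂ), (∀ x ∈ L, ∀ u ∈ W, x u ∈ W) → W = ⊥ ∨ W = ⊤) →
    (∀ x ∈ L, ∀ u v, ω (x u) v = -ω u (x v)) →
    ∀ h ∈ L, (⨆ p ∈ S, Module.End.eigenspace h ((p - m : ℤ) : ℂ)) = ⊤ →
      (∀ p ∈ S, finrank ℂ (Module.End.eigenspace h ((p - m : ℤ) : ℂ)) = r p) →
      ∀ x : Module.End ℂ (n → ℂ), (∀ u v, ω (x u) v = -ω u (x v)) → x ∈ L

theorem CoreS43.core {n : Type*} [Fintype n] [DecidableEq n] {m : ℤ} {r : ℤ → ℕ} {S : Finset ℤ} (core : CoreS43 n m r S)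
    (h2 : 2 ≤ Fintype.card n) (hS : ∀ p, p ∉ S → r p = 0) : MH.Core n m r := by
  intro Q' Qi hQ hQ1 hQ2 L hbr hirr hsk hs h E Λ hh hE hint hr X hX
  have hsa : (Matrix.toBilin' Q').IsSymm := form_symm98 hQ
  have hE2 : ∀ p : ℤ, Module.End.eigenspace (Matrix.toLin' h) ((p - m : ℤ) : ℂ) =
      Module.End.eigenspace (Matrix.toLin' h) ((((p - m : ℤ) : ℝ)) : ℂ) := by
    intro p
    congr 1
  have hsup : (⨆ p ∈ S, Module.End.eigenspace (Matrix.toLin' h) ((p - m : ℤ) : ℂ)) = ⊤ := by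
    rw [eq_top_iff]
    intro v _
    have h3 : v = ∑ ν ∈ Λ, E ν *ᵥ v := by
      rw [← Matrix.sum_mulVec, hE.sum, Matrix.one_mulVec]
    rw [h3]
    refine Submodule.sum_mem _ fun ν _ => ?_
    by_cases hν : E ν = 0
    · rw [hν, Matrix.zero_mulVec]
      exact Submodule.zero_mem _
    obtain ⟨p, hp⟩ := hint ν hν
    have hpS : p ∈ S := by
      by_contra hcon
      have h5 := hS p hcon
      rw [← hr p, ← hp] at h5
      apply hν
      have h6 : (E ν).rank = 0 := h5
      rw [Matrix.rank, Submodule.finrank_eq_zero, LinearMap.range_eq_bot] at h6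
      exact (LinearEquiv.map_eq_zero_iff Matrix.toLin').1 h6
    have h4 : E ν *ᵥ v ∈ Module.End.eigenspace (Matrix.toLin' h) ((p - m : ℤ) : ℂ) := by
      rw [hE2, ← hp, hE.eig98]
      exact ⟨v, by rw [Matrix.toLin'_apply]⟩
    exact Submodule.mem_iSup_of_mem p (Submodule.mem_iSup_of_mem hpS h4)
  have hrk : ∀ p ∈ S, finrank ℂ (Module.End.eigenspace (Matrix.toLin' h) ((p - m : ℤ) : ℂ)) = r p := by
    intro p _
    rw [hE2, hE.finrank_eig98, hr]
  have h4 : Matrix.toLin' X ∈ lieOf L hbr := by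
    refine core (Matrix.toBilin' Q') hsa (form_nondeg98 hQ1) (lieOf L hbr) (lieOf_simple hirr h2 hs)
      (lieOf_irr hirr) (lieOf_sk hsk) _ (toLin_mem_lieOf hh) hsup hrk _ fun u v => ?_
    rw [Matrix.toLin'_apply, Matrix.toLin'_apply]
    exact skew_iff98.1 hX u v
  rw [mem_lieOf, LinearMap.toMatrix'_toLin'] at h4
  exact h4

/-- `CoreS` for three Hodge numbers `s, h, s` outside a list. -/
theorem coreS_lt43 (n : Type) [Fintype n] {a b c : ℤ} (hab : a + b = 2 * c) (hca : c < a) {r : ℤ → ℕ}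
    {S : Finset ℤ} (hS : ∀ p, p ∉ S → r p = 0) (hr : ∀ p, p ≠ a → p ≠ c → p ≠ b → r p = 0) (hba : r b = r a)
    (hs : 0 < r a) (hh : 0 < r c) (hn : Fintype.card n = 2 * r a + r c) (h5 : 5 ≤ Fintype.card n)
    (hE : ∀ {ι : Type} [Fintype ι] (Φ X : Finset (EuclideanSpace ℝ ι)) (l y v : EuclideanSpace ℝ ι),
      AG.D3 Φ X (Fintype.card n) (r a) l y v → Top Φ X l v → Par Φ l v → PF.TypeB Φ X ∨ PF.TypeD Φ X) :
    CoreS43 n c r S := by
  classical
  intro ω hω hnd L hL hirr hsk h hhL hsup hrk x hx'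
  have hcard : finrank ℂ (n → ℂ) = Fintype.card n := Module.finrank_fintype_fun_eq_card ℂ
  obtain ⟨δ, hδ⟩ : ∃ δ : ℤ, δ = a - c := ⟨_, rfl⟩
  have hδ0 : 0 < δ := by omega
  have hδC : (δ : ℂ) ≠ 0 := by exact_mod_cast hδ0.ne'
  have key : ∀ k : ℤ, Module.End.eigenspace ((δ : ℂ)⁻¹ • h) (k : ℂ) =
      Module.End.eigenspace h ((δ * k : ℤ) : ℂ) := by
    intro k
    ext v
    rw [Module.End.mem_eigenspace_iff, Module.End.mem_eigenspace_iff, LinearMap.smul_apply]
    constructor
    · intro h1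
      have h2 := congrArg (fun u => (δ : ℂ) • u) h1
      simp only [smul_smul] at h2
      rw [mul_inv_cancel₀ hδC, one_smul] at h2
      rw [h2]
      congr 1
      push_cast
      ring
    · intro h1
      rw [h1, smul_smul]
      congr 1
      push_cast
      field_simp
  have haS : a ∈ S := by
    by_contra hcon
    have := hS a hcon
    omega
  have hbS : b ∈ S := by
    by_contra hcon
    have := hS b hcon
    omega
  have ea : a - c = δ * 1 := by omega
  have eb : b - c = δ * (-1) := by omega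
  have ec : c - c = δ * 0 := by omega
  have k1 := key 1
  have k0 := key 0
  have km := key (-1)
  rw [← ea, Int.cast_one] at k1
  rw [← ec, Int.cast_zero] at k0
  rw [← eb] at km
  have e1 : ((-1 : ℤ) : ℂ) = -1 := by norm_num
  rw [e1] at km
  refine core_lt (Or.inl hω) hnd hL hirr hsk ((δ : ℂ)⁻¹ • h) (L.smul_mem _ hhL) hs (by omega) (by omega) ?_ ?_ ?_ ?_ x hx'
  · rw [eq_top_iff, ← hsup]
    refine iSup₂_le fun p hp => ?_
    by_cases h1 : p = a
    · subst h1
      rw [k1]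
      exact le_sup_of_le_left le_sup_left
    · by_cases h2 : p = b
      · subst h2
        rw [km]
        exact le_sup_right
      · by_cases h3 : p = c
        · subst h3
          rw [k0]
          exact le_sup_of_le_left le_sup_right
        · have h4 := hrk p hp
          rw [hr p h1 h3 h2, Submodule.finrank_eq_zero] at h4
          rw [h4]
          exact bot_le
  · rw [k1, hrk a haS]
  · rw [km, hrk b hbS, hba]
  · intro ι _ Φ X l y v hd ht hp
    rw [hcard] at hd
    exact hE Φ X l y v hd ht (hp hω)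

section
open PF TF PW
variable {E : Type*} [NormedAddCommGroup E] [InnerProductSpace ℝ E] {Φ X : Finset E} {n s : ℕ} {l y v : E}

/-- **The list.** All data of orthogonal modules with the levels `-1`, `0`, `1`. -/
theorem list43 (h : AG.D3 Φ X n s l y v) (ht : Top Φ X l v) (hp : Par Φ l v) (h5 : 5 ≤ n) :
    TypeB Φ X ∨ TypeD Φ X ∨ Exc s (n - 2 * s) := by
  obtain ⟨y', hy'⟩ := exists_dt h ht hp
  obtain ⟨c, hc0, hNRS⟩ := exists_NRS h.inn.rs
  have h' := hy'.sc hc0
  have hall : TypeB (PF.sc c Φ) (PF.sc c X) ∨ TypeD (PF.sc c Φ) (PF.sc c X) ∨ Exc s (n - 2 * s) := by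
    rcases classify hNRS with ⟨m, u, hm, hu⟩ | ⟨m, e, c', d, h1, h2, h0, he⟩ | ⟨u, z, hu⟩ | ⟨u, hu⟩ | ⟨u, hu⟩ |
      ⟨e, he⟩ | ⟨u, hu⟩
    · exact typeA h' hu hm
    · exact typeBCD h' he h1 h2 h0 h5
    · obtain ⟨rfl, rfl⟩ := typeE6 h' hu
      exact Or.inr (Or.inr (by unfold Exc; tauto))
    · obtain ⟨rfl, rfl⟩ := typeE7 h' hu
      exact Or.inr (Or.inr (by unfold Exc; tauto))
    · exact (typeE8 h' hu).elim
    · obtain ⟨rfl, rfl⟩ := typeF4 h' he
      exact Or.inr (Or.inr (by unfold Exc; tauto))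
    · obtain ⟨rfl, rfl⟩ := typeG2 h' hu
      exact Or.inr (Or.inr (by unfold Exc; tauto))
  rcases hall with h1 | h1 | h1
  · exact Or.inl (h1.of_sc hc0)
  · exact Or.inr (Or.inl (h1.of_sc hc0))
  · exact Or.inr (Or.inr h1)

end


/-- **The core for three numbers `s, h, s`, even weight.** -/
theorem core_lt3_43 {n : Type} [Fintype n] [DecidableEq n] {a b c : ℤ} (hab : a + b = 2 * c) (hca : c < a) {r : ℤ → ℕ}
    (hr : ∀ p, p ≠ a → p ≠ c → p ≠ b → r p = 0) (hba : r b = r a) (hs : 0 < r a) (hh : 0 < r c)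
    (hn : Fintype.card n = 2 * r a + r c) (h5 : 5 ≤ Fintype.card n) (hx : ¬ Exc (r a) (r c)) :
    NI.Indec (2 * c) r ∧ MH.Core n c r := by
  constructor
  · obtain ⟨k, hk⟩ : ∃ k : ℤ, k = a - c := ⟨_, rfl⟩
    refine indec_three55 (m := c) (k := k) (by omega) (s := r a) (h := r c) ?_ rfl ?_ ?_
    · rw [show c + k = a by omega]
    · intro p h1 h2 h3
      exact hr p (by omega) h2 (by omega)
    · intro h
      exact hx (Or.inl h)
  · have hS : ∀ p, p ∉ ({a, c, b} : Finset ℤ) → r p = 0 := by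
      intro p hp
      simp only [Finset.mem_insert, Finset.mem_singleton, not_or] at hp
      exact hr p hp.1 hp.2.1 hp.2.2
    refine CoreS43.core (S := {a, c, b}) (coreS_lt43 n hab hca hS hr hba hs hh hn h5 ?_) (by omega) hS
    intro ι _ Φ X l y v hd ht hp
    rcases list43 hd ht hp (by omega) with h1 | h1 | h1
    · exact Or.inl h1
    · exact Or.inr h1
    · exfalso
      have e1 : Fintype.card n - 2 * r a = r c := by omega
      rw [e1] at h1
      exact hx h1

end LT
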