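import Pool.Agent.Helper14.AT.MainP
import Pool.Agent.Helper43.GP.FinalN

/-!
Project BL (MP_b8862a_ag): blocks of orthogonal type, with the core statement for symmetric forms only.
-/

set_option linter.unusedSectionVars false
set_option linter.unusedVariables false

open Matrix Module GH OW

namespace MH

variable {n : Type*} [Fintype n] [DecidableEq n]

/-- The core statement for symmetric forms. -/
def CoreS (n : Type*) [Fintype n] [DecidableEq n] (w : ℤ) (r : ℤ → ℕ) : Prop :=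
  ∀ Q' Qi : Matrix n n ℂ, Q'ᵀ = Q' → Q' * Qi = 1 → Qi * Q' = 1 →
    ∀ L : Submodule ℂ (Matrix n n ℂ), (∀ X ∈ L, ∀ Y ∈ L, X * Y - Y * X ∈ L) →
      (∀ W : Submodule ℂ (n → ℂ), (∀ X ∈ L, ∀ w ∈ W, X *ᵥ w ∈ W) → W = ⊥ ∨ W = ⊤) →
      (∀ X ∈ L, Xᵀ * Q' + Q' * X = 0) → Smp L →
    ∀ (h : Matrix n n ℂ) (E : ℝ → Matrix n n ℂ) (Λ : Finset ℝ), h ∈ L → SD h E Λ →
      (∀ μ : ℝ, E μ ≠ 0 → ∃ p : ℤ, μ = ((2 * p - w : ℤ) : ℝ)) →
      (∀ p : ℤ, (E ((2 * p - w : ℤ) : ℝ)).rank = r p) →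
    ∀ X : Matrix n n ℂ, Xᵀ * Q' + Q' * X = 0 → X ∈ L

theorem Core.coreS43 {m : ℤ} {r : ℤ → ℕ} (H : Core n m r) : CoreS n (2 * m) r := by
  intro Q' Qi hQ h1 h2 L hbr hirr hsk hs h E Λ hh hE hint hr X hX
  refine H Q' Qi hQ h1 h2 L hbr hirr hsk hs ((2 : ℂ)⁻¹ • h) (fun μ => E (2 * μ)) (Λ.image fun μ => μ / 2)
    (L.smul_mem _ hh) ?_ ?_ ?_ X hX
  · refine ⟨fun μ ν => ?_, ?_, ?_⟩
    · rw [hE.mul]
      by_cases hμ : μ = ν
      · rw [if_pos hμ, if_pos (by rw [hμ])]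
      · rw [if_neg hμ, if_neg (fun h => hμ (by linarith))]
    · rw [← hE.sum, Finset.sum_image (fun a _ b _ h => by linarith)]
      refine Finset.sum_congr rfl fun μ _ => ?_
      rw [mul_div_cancel₀ _ (two_ne_zero)]
    · rw [hE.eq, Finset.smul_sum, Finset.sum_image (fun a _ b _ h => by linarith)]
      refine Finset.sum_congr rfl fun μ _ => ?_
      rw [mul_div_cancel₀ _ (two_ne_zero), smul_smul]
      congr 1
      push_cast
      ring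
  · intro μ hμ
    obtain ⟨p, hp⟩ := hint _ hμ
    refine ⟨p, ?_⟩
    push_cast at hp ⊢
    linarith
  · intro p
    have : 2 * ((p - m : ℤ) : ℝ) = ((2 * p - 2 * m : ℤ) : ℝ) := by
      push_cast
      ring
    simp only [this]
    exact hr p

/-- a Lie algebra with scalar commutant and a compact form is everything, by the core statement for symmetric forms -/
theorem full_coreS43 [Nonempty n] {w : ℤ} {Q' Qi : Matrix n n ℂ} (hQs : Q'ᵀ = Q') (hQ1 : Q' * Qi = 1)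
    (hQ2 : Qi * Q' = 1)
    {L : Submodule ℂ (Matrix n n ℂ)} (hbr : ∀ X ∈ L, ∀ Y ∈ L, X * Y - Y * X ∈ L)
    (hcom : ∀ T : Matrix n n ℂ, (∀ X ∈ L, T * X = X * T) → ∃ c : ℂ, T = c • (1 : Matrix n n ℂ))
    (hsk : ∀ X ∈ L, Xᵀ * Q' + Q' * X = 0) {h : Matrix n n ℂ} (hh : h ∈ L) {E : ℝ → Matrix n n ℂ} {Λ : Finset ℝ}
    (hE : SD h E Λ) (hw : ∀ μ : ℝ, E μ ≠ 0 → ∃ p : ℤ, μ = ((2 * p - w : ℤ) : ℝ))
    (hI : NI.Indec w (fun p : ℤ => (E ((2 * p - w : ℤ) : ℝ)).rank))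
    (hd : ∀ d : ℕ, (∀ μ ∈ Λ, d ∣ (E μ).rank) → d = 1)
    (hcore : CoreS n w (fun p : ℤ => (E ((2 * p - w : ℤ) : ℝ)).rank))
    (hherm : ∃ B Bi : Matrix n n ℂ, B * Bi = 1 ∧ Bi * B = 1 ∧
      (cj B Bi h)ᴴ = cj B Bi h ∧ ∀ X ∈ L, cj Bi B (cj B Bi X)ᴴ ∈ L)
    {X : Matrix n n ℂ} (hX : Xᵀ * Q' + Q' * X = 0) : X ∈ L := by
  classical
  have hc0 : (1 : ℂ) * 1 = 1 := by norm_num
  have hQs' : Q'ᵀ = (1 : ℂ) • Q' := by rw [hQs, one_smul]
  obtain ⟨B, Bi, h1, h2, h3, h4⟩ := hherm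
  obtain ⟨D, f1, f2, hF⟩ := dat_gen14 hc0 hQs' hQ1 hQ2 hbr hcom hsk hh hE h1 h2 h3 h4
  have hEE : ∀ μ, E μ * E μ = E μ := fun μ => by rw [hE.mul, if_pos rfl]
  have r1 : ∀ μ, (cj B Bi (E μ)).rank = (E μ).rank := fun μ => rank_cj h1 h2 (hEE μ)
  have hw' : ∀ μ : ℝ, cj B Bi (E μ) ≠ 0 → ∃ p : ℤ, μ = ((2 * p - w : ℤ) : ℝ) := fun μ hμ => hw μ fun h0 => hμ (by
    rw [h0, cj_zero])
  have hsmp : Smp (LBB71 L B Bi) := by
    refine D.smp_of_gcdW f1 f2 hc0 hF (fun x => rfl) (w := w) hw' ?_ ?_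
    · simp only [r1]
      exact hI
    · intro d hdd
      apply hd
      intro μ hμ
      have := hdd μ hμ
      rwa [r1] at this
  have hx : (cj B Bi X)ᵀ * (Biᵀ * Q' * Bi) + (Biᵀ * Q' * Bi) * cj B Bi X = 0 := by
    have b1 : Bᵀ * Biᵀ = 1 := by rw [← Matrix.transpose_mul, h2, Matrix.transpose_one]
    have e1 : (cj B Bi X)ᵀ * (Biᵀ * Q' * Bi) = Biᵀ * (Xᵀ * Q') * Bi := by
      unfold cj
      rw [Matrix.transpose_mul, Matrix.transpose_mul]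
      calc Biᵀ * (Xᵀ * Bᵀ) * (Biᵀ * Q' * Bi) = Biᵀ * Xᵀ * (Bᵀ * Biᵀ) * Q' * Bi := by simp only [mul_assoc]
        _ = _ := by rw [b1, mul_one]; simp only [mul_assoc]
    have e2 : (Biᵀ * Q' * Bi) * cj B Bi X = Biᵀ * (Q' * X) * Bi := by
      unfold cj
      calc Biᵀ * Q' * Bi * (B * X * Bi) = Biᵀ * Q' * (Bi * B) * X * Bi := by simp only [mul_assoc]
        _ = _ := by rw [h2, mul_one]; simp only [mul_assoc]
    rw [e1, e2, ← Matrix.add_mul, ← Matrix.mul_add, hX, mul_zero, zero_mul]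
  have hsym : (Biᵀ * Q' * Bi)ᵀ = Biᵀ * Q' * Bi := by rw [hF, one_smul]
  have hmem : cj B Bi X ∈ LBB71 L B Bi := by
    refine hcore (Biᵀ * Q' * Bi) (B * Qi * Bᵀ) hsym f1 f2 (LBB71 L B Bi) D.br
      (fun W hW => D.stable W hW) ?_ hsmp (cj B Bi h) (fun μ => cj B Bi (E μ)) Λ D.mem
      ⟨D.spec.mul, D.spec.sum, D.spec.eq⟩ hw' (fun p => r1 _) _ hx
    intro Z hZ
    have e1 := D.sk Z hZ
    rw [tG71_apply] at e1
    have e2 : Zᵀ * (Biᵀ * Q' * Bi) = -((Biᵀ * Q' * Bi) * Z) := by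
      calc Zᵀ * (Biᵀ * Q' * Bi) = (Biᵀ * Q' * Bi) * (B * Qi * Bᵀ * Zᵀ * (Biᵀ * Q' * Bi)) := by
            simp only [← mul_assoc] at f1 ⊢
            rw [f1, one_mul]
        _ = _ := by rw [e1, mul_neg]
    rw [e2, neg_add_cancel]
  rw [mem_LBB71, cj_cj h2] at hmem
  exact hmem

/-- the abstract condition on a block of orthogonal type -/
def CrO (w : ℤ) (r : ℕ) (h : ℤ → ℕ) : Prop :=
  NI.Indec w h ∧ 9 ≤ r ∧ ((∀ p, h p ≠ r) → CoreS (Fin r) w h)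

section cmp

variable {w : ℤ} {Q : Matrix n n ℚ} {S : Finset ℤ} {P : ℤ → Matrix n n ℂ} {Γ : Subgroup (GL n ℂ)}
  {r : ℕ} {W : Matrix n (Fin r) ℂ} {V : Matrix (Fin r) n ℂ} {e : Matrix n n ℂ}

/-- all skew matrices -/
theorem IsGalU.full_crO43 (H : IsHW w Q S P) (G : IsGalU w Q S P Γ) (he : IsBlk P e) (hVW : V * W = 1)
    (hWV : W * V = e) (hr : 2 ≤ r) {S1 : Finset ℤ} {R1 : ℤ → Matrix n n ℂ}
    (hR1 : IsHTw w Q S1 Γ R1) (hg : ∀ d : ℕ, (∀ p, d ∣ (e * R1 p).rank) → d = 1) {m : ℤ} (hm : w = 2 * m)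
    (hO : OrthB Q P e) (hN : CrO w r (fun p => (e * R1 p).rank)) : TyN (cpS W V (LG Γ)) := by
  classical
  have hne : Nonempty (Fin r) := ⟨⟨0, by omega⟩⟩
  have hre := _root_.MH.blk_rank he hVW hWV
  have hT0 : HasHT w Q Γ e := ⟨S1, R1, hR1, hg⟩
  obtain ⟨hI, h9, hcore⟩ := hN
  obtain ⟨F, Fi, hF1, hF2, hFs, hFL, hFh⟩ := G.exists_form H he hVW hWV hT0 hm hO
  obtain ⟨A, C⟩ := G.exists_CR hR1 he hVW hWV
  obtain ⟨E, Λ, hSD, hE, hΛ, hint⟩ := C.exists_sdW w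
  obtain ⟨L0, hL0⟩ : ∃ L0 : Submodule ℂ (Matrix (Fin r) (Fin r) ℂ), ∀ y, y ∈ L0 ↔
      (y ∈ cpS W V (LG Γ) ∧ yᵀ * F + F * y = 0) := by
    refine ⟨{ carrier := {y | y ∈ cpS W V (LG Γ) ∧ yᵀ * F + F * y = 0}, add_mem' := ?_, zero_mem' := ?_,
              smul_mem' := ?_ }, fun y => Iff.rfl⟩
    · rintro a b ⟨ha', ha⟩ ⟨hb', hb⟩
      refine ⟨Submodule.add_mem _ ha' hb', ?_⟩
      rw [Matrix.transpose_add, Matrix.add_mul, Matrix.mul_add]
      calc aᵀ * F + bᵀ * F + (F * a + F * b) = (aᵀ * F + F * a) + (bᵀ * F + F * b) := by abel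
        _ = 0 := by rw [ha, hb, add_zero]
    · exact ⟨Submodule.zero_mem _, by simp⟩
    · rintro c a ⟨ha', ha⟩
      refine ⟨Submodule.smul_mem _ c ha', ?_⟩
      rw [Matrix.transpose_smul, Matrix.smul_mul, Matrix.mul_smul, ← smul_add, ha, smul_zero]
  have hdec : ∀ y ∈ cpS W V (LG Γ), ∃ c : ℂ, y - c • (1 : Matrix (Fin r) (Fin r) ℂ) ∈ L0 := by
    intro y hy
    obtain ⟨c, hc⟩ := hFL y hy
    refine ⟨c / 2, ?_⟩
    rw [hL0]
    refine ⟨Submodule.sub_mem _ hy (Submodule.smul_mem _ _ one_cpS), ?_⟩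
    rw [Matrix.transpose_sub, Matrix.transpose_smul, Matrix.transpose_one, Matrix.sub_mul, Matrix.mul_sub,
      Matrix.smul_mul, Matrix.mul_smul, Matrix.one_mul, Matrix.mul_one]
    calc yᵀ * F - (c / 2) • F + (F * y - (c / 2) • F) = (yᵀ * F + F * y) - c • F := by module
      _ = 0 := by rw [hc, sub_self]
  have hbr : ∀ X ∈ L0, ∀ Y ∈ L0, X * Y - Y * X ∈ L0 := by
    intro x hx y hy
    rw [hL0] at hx hy ⊢
    refine ⟨G.cpS_br he hVW hWV x hx.1 y hy.1, ?_⟩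
    have a1 : xᵀ * F = -(F * x) := eq_neg_of_add_eq_zero_left hx.2
    have a2 : yᵀ * F = -(F * y) := eq_neg_of_add_eq_zero_left hy.2
    rw [Matrix.transpose_sub, Matrix.transpose_mul, Matrix.transpose_mul, sub_mul, mul_assoc, mul_assoc, a1, a2,
      mul_neg, mul_neg, ← mul_assoc, ← mul_assoc, a1, a2]
    simp only [neg_mul, neg_neg, mul_sub, mul_assoc]
    abel
  have hirr : ∀ U : Submodule ℂ (Fin r → ℂ), (∀ X ∈ L0, ∀ u ∈ U, X *ᵥ u ∈ U) → U = ⊥ ∨ U = ⊤ := by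
    intro U hU
    refine G.cpS_irr he hVW hWV hT0 U fun y hy u hu => ?_
    obtain ⟨c, hc⟩ := hdec y hy
    have e1 := hU _ hc u hu
    have e2 : y *ᵥ u = (y - c • (1 : Matrix (Fin r) (Fin r) ℂ)) *ᵥ u + c • u := by
      rw [Matrix.sub_mulVec, Matrix.smul_mulVec, Matrix.one_mulVec, sub_add_cancel]
    rw [e2]
    exact U.add_mem e1 (U.smul_mem _ hu)
  have hsk : ∀ X ∈ L0, Xᵀ * F + F * X = 0 := fun X hX => ((hL0 X).1 hX).2
  have hh : (2 : ℂ) • (V * hR S1 R1 * W) - (w : ℂ) • (1 : Matrix (Fin r) (Fin r) ℂ) ∈ L0 := by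
    rw [hL0]
    refine ⟨Submodule.sub_mem _ (Submodule.smul_mem _ _ (le_cpS ⟨_, hR1.hR_mem, rfl⟩)) (Submodule.smul_mem _ _ one_cpS),
      ?_⟩
    have e1 : (2 : ℂ) • (V * hR S1 R1 * W) - (w : ℂ) • (1 : Matrix (Fin r) (Fin r) ℂ) =
        (2 : ℂ) • (V * hR S1 R1 * W - (m : ℂ) • (1 : Matrix (Fin r) (Fin r) ℂ)) := by
      rw [smul_sub, smul_smul, hm]
      push_cast
      rfl
    rw [e1, Matrix.transpose_smul, Matrix.smul_mul, Matrix.mul_smul, ← smul_add, hFh S1 R1 hR1, smul_zero]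
  have htr : ∀ X ∈ L0, X.trace = 0 := by
    intro X hX
    have e1 : Xᵀ * F = -(F * X) := eq_neg_of_add_eq_zero_left (hsk X hX)
    have e2 : X.trace = -X.trace := by
      calc X.trace = Xᵀ.trace := (Matrix.trace_transpose X).symm
        _ = (Xᵀ * F * Fi).trace := by rw [Matrix.mul_assoc, hF1, Matrix.mul_one]
        _ = -(F * X * Fi).trace := by rw [e1, Matrix.neg_mul, Matrix.trace_neg]
        _ = -X.trace := by rw [Matrix.mul_assoc, Matrix.trace_mul_comm, Matrix.mul_assoc, hF2, Matrix.mul_one]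
    have e3 : (2 : ℂ) * X.trace = 0 := by linear_combination e2
    exact (mul_eq_zero.1 e3).resolve_left two_ne_zero
  have hEr : (fun p : ℤ => (E ((2 * p - w : ℤ) : ℝ)).rank) = fun p => (e * R1 p).rank := by
    funext p
    rw [hE p, C.rank]
  have hcoreP : CoreS (Fin r) w (fun p : ℤ => (E ((2 * p - w : ℤ) : ℝ)).rank) := by
    rw [hEr]
    refine hcore ?_
    intro p hp
    refine C.not_one hr hg p ?_
    have h3 : (A p).rank = r := by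
      rw [C.rank]
      exact hp
    have hAA : A p * A p = A p := by rw [C.mul, if_pos rfl]
    have h4 := rank_compl hAA
    rw [h3, Fintype.card_fin] at h4
    have h5 : (1 - A p).rank = 0 := by omega
    rw [Matrix.rank, Submodule.finrank_eq_zero, LinearMap.range_eq_bot] at h5
    have h6 : 1 - A p = 0 := (LinearEquiv.map_eq_zero_iff Matrix.toLin').1 h5
    exact (sub_eq_zero.1 h6).symm
  have hfull : ∀ x : Matrix (Fin r) (Fin r) ℂ, xᵀ * F + F * x = 0 → x ∈ cpS W V (LG Γ) := by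
    intro x hx
    have hmem := full_coreS43 (w := w) hFs hF1 hF2 hbr (fun T hT => schur98 L0 hirr hT) hsk hh hSD hint
      (by rw [hEr]; exact hI) (fun d hdd => hg d fun p => by
        by_cases hp : p ∈ S1
        · have h3 := hdd _ (by rw [hΛ]; exact Finset.mem_image_of_mem _ hp)
          rwa [hE, C.rank] at h3
        · rw [hR1.supp p hp, Matrix.mul_zero, Matrix.rank_zero]
          exact dvd_zero d) hcoreP (exists_herm L0 hbr hirr htr hh hSD) hx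
    exact ((hL0 x).1 hmem).1
  refine ⟨Or.inr ⟨F, Or.inl hFs, ⟨⟨F, Fi, hF1, hF2⟩, rfl⟩, hfull, hFL⟩, Or.inr ?_⟩
  rw [Fintype.card_fin]
  exact h9

theorem OrthB.aut43 (σ : ℂ ≃+* ℂ) {e : Matrix n n ℂ} (h : OrthB Q P e) : OrthB Q P (e.map σ) := by
  obtain ⟨x, hx, h1, h0⟩ := h
  have hQ : (toC Q).map σ = toC Q := by
    ext i j
    simp [toC]
  refine ⟨x.map σ, EC_aut σ hx, ?_, fun h3 => h0 ?_⟩
  · have h4 := congrArg (fun M : Matrix n n ℂ => M.map σ) h1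
    simp only [map_mulσ, hQ] at h4
    have h5 : (x.map σ)ᵀ = xᵀ.map σ := rfl
    rw [h5]
    exact h4
  · have h2 : (e.map σ)ᵀ * (toC Q * x.map σ) * e.map σ = (eᵀ * (toC Q * x) * e).map σ := by
      rw [map_mulσ, map_mulσ, map_mulσ, hQ]
      rfl
    rw [h2] at h3
    rw [← map_symmσ' σ (eᵀ * (toC Q * x) * e), h3]
    ext i j
    simp

/-- a block with a conjugate that satisfies the condition, without common divisor: the orthogonal case -/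
theorem IsHW.tyBN_crO43 (H : IsHW w Q S P) {m : ℤ} (hm : w = 2 * m) {e : Matrix n n ℂ} (hO : OrthB Q P e)
    (he : IsBlk P e) (hr2 : 2 ≤ e.rank)
    {σ : ℂ ≃+* ℂ} (hg : ∀ d : ℕ, (∀ p, d ∣ (e.map σ * P p).rank) → d = 1)
    (hN : CrO w e.rank (fun p => (e.map σ * P p).rank)) : TyBN Q S P e := by
  have hf := he.aut σ
  obtain ⟨r, W, V, hVW, hWV⟩ := exists_coord48 hf.idem
  have hrr : (e.map σ).rank = r := _root_.MH.blk_rank hf hVW hWV
  have hrk := rank_aut σ he.idem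
  have hr : 2 ≤ r := by
    rw [← hrr, hrk]
    exact hr2
  have h1 := IsGalU.full_crO43 H H.isGalU_MT hf hVW hWV hr H.isHTw_id hg hm (hO.aut43 σ)
    (by rw [← hrr, hrk]; exact hN)
  rw [H.cpS_LG_MT hVW] at h1
  have h2 : TyBN Q S P (e.map σ) := ⟨r, W, V, hVW, hWV, h1⟩
  have h3 := h2.aut σ.symm
  rwa [map_symmσ'] at h3

end cmp

end MH
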