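import Pool.Agent.Helper43.BL.Main
import Pool.Agent.Helper43.BL.CoreLT

/-!
Project BL (MP_b8862a_ag): the final theorem for blocks.
-/

set_option linter.unusedSectionVars false
set_option linter.unusedVariables false

open Matrix Module GH

namespace MH

/-- The condition of goodness holds for the list `LT.Exc`. -/
theorem goodL_exc : GoodL fun t h => t = 0 ∨ h = 0 ∨ LT.Exc t h := by
  intro m r t h f hN hr h9 hb
  obtain ⟨k, hk, h1, h2, h3, h4⟩ := hN
  push Not at hb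
  obtain ⟨ht, hh, hb⟩ := hb
  obtain ⟨hI, hC⟩ := LT.core_lt3_43 (n := Fin r) (a := m + k) (b := m - k) (c := m) (by ring) (by omega) (r := f)
    (fun p p1 p2 p3 => h4 p p1 p2 p3) (by omega) (by omega) (by omega) (by simp; omega) (by simp; omega)
    (by rw [h1, h2]; exact hb)
  exact ⟨hI, h9, fun _ => Core.coreS43 hC⟩

section gen

variable {n : Type*} [Fintype n] [DecidableEq n]

/-- the ranks of a skew element are symmetric -/
theorem SD.rank_neg43 {h F Fi : Matrix n n ℂ} {E : ℝ → Matrix n n ℂ} {Λ : Finset ℝ} (D : SD h E Λ) (h1 : F * Fi = 1)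
    (h2 : Fi * F = 1) (hs : hᵀ * F + F * h = 0) (μ : ℝ) : (E (-μ)).rank = (E μ).rank := by
  classical
  have key : ∀ μ : ℝ, (E (-μ)).rank ≤ (E μ).rank := by
    intro μ
    have h3 : ∀ ν ∈ Λ, ν ≠ μ → (E ν)ᵀ * F * E (-μ) = 0 := by
      intro ν _ hν
      have a1 : (E ν)ᵀ * (hᵀ * F) * E (-μ) = (ν : ℂ) • ((E ν)ᵀ * F * E (-μ)) := by
        rw [← Matrix.mul_assoc, ← Matrix.transpose_mul, D.l_mul, Matrix.transpose_smul, Matrix.smul_mul,
          Matrix.smul_mul]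
      have a2 : (E ν)ᵀ * (F * h) * E (-μ) = ((-μ : ℝ) : ℂ) • ((E ν)ᵀ * F * E (-μ)) := by
        rw [Matrix.mul_assoc, Matrix.mul_assoc F, D.l_mul, Matrix.mul_smul, Matrix.mul_smul, Matrix.mul_assoc]
      have a3 : ((ν : ℂ) + ((-μ : ℝ) : ℂ)) • ((E ν)ᵀ * F * E (-μ)) = 0 := by
        rw [add_smul, ← a1, ← a2, ← Matrix.add_mul, ← Matrix.mul_add, hs, Matrix.mul_zero, Matrix.zero_mul]
      refine (smul_eq_zero.1 a3).resolve_left fun a4 => hν ?_
      have a5 : ((ν - μ : ℝ) : ℂ) = 0 := by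
        push_cast at a4 ⊢
        linear_combination a4
      have a6 : ν - μ = 0 := by exact_mod_cast a5
      linarith
    have h4 : F * E (-μ) = (E μ)ᵀ * F * E (-μ) := by
      calc F * E (-μ) = (∑ ν ∈ Λ, E ν)ᵀ * F * E (-μ) := by rw [D.sum, Matrix.transpose_one, Matrix.one_mul]
        _ = ∑ ν ∈ Λ, (E ν)ᵀ * F * E (-μ) := by
          rw [Matrix.transpose_sum, Matrix.sum_mul, Matrix.sum_mul]
        _ = (E μ)ᵀ * F * E (-μ) := by
          by_cases h0 : μ ∈ Λ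
          · rw [Finset.sum_eq_single μ (fun ν h5 h6 => h3 ν h5 h6) (fun h6 => absurd h0 h6)]
          · rw [D.supp h0, Matrix.transpose_zero, Matrix.zero_mul, Matrix.zero_mul]
            exact Finset.sum_eq_zero fun ν h5 => h3 ν h5 fun h6 => h0 (h6 ▸ h5)
    have h5 : E (-μ) = Fi * ((E μ)ᵀ * (F * E (-μ))) := by
      rw [← Matrix.mul_assoc (E μ)ᵀ, ← h4, ← Matrix.mul_assoc, h2, Matrix.one_mul]
    rw [h5]
    refine (Matrix.rank_mul_le_right _ _).trans ((Matrix.rank_mul_le_left _ _).trans ?_)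
    rw [Matrix.rank_transpose]
  refine le_antisymm (key μ) ?_
  have := key (-μ)
  rwa [neg_neg] at this

variable {w : ℤ} {Q : Matrix n n ℚ} {S : Finset ℤ} {P : ℤ → Matrix n n ℂ}

/-- the ranks of a block of orthogonal type are symmetric -/
theorem IsHW.rank_refl43 (H : IsHW w Q S P) {m : ℤ} (hm : w = 2 * m) {e : Matrix n n ℂ} (he : IsBlk P e)
    (hO : OrthB Q P e) (hg : ∀ d : ℕ, (∀ p, d ∣ (e * P p).rank) → d = 1) (k : ℤ) :
    (e * P (m - k)).rank = (e * P (m + k)).rank := by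
  obtain ⟨r, W, V, hVW, hWV⟩ := exists_coord48 he.idem
  have hT0 : HasHT w Q (MT S P) e := ⟨S, P, H.isHTw_id, hg⟩
  obtain ⟨F, Fi, hF1, hF2, hFs, hFL, hFh⟩ := H.isGalU_MT.exists_form H he hVW hWV hT0 hm hO
  obtain ⟨A, C⟩ := H.isGalU_MT.exists_CR H.isHTw_id he hVW hWV
  obtain ⟨E, Λ, hSD, hE, hΛ, hint⟩ := C.exists_sdW w
  have e1 : (2 : ℂ) • (V * hR S P * W) - (w : ℂ) • (1 : Matrix (Fin r) (Fin r) ℂ) =
      (2 : ℂ) • (V * hR S P * W - (m : ℂ) • (1 : Matrix (Fin r) (Fin r) ℂ)) := by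
    rw [smul_sub, smul_smul, hm]
    push_cast
    rfl
  have hs : ((2 : ℂ) • (V * hR S P * W) - (w : ℂ) • (1 : Matrix (Fin r) (Fin r) ℂ))ᵀ * F +
      F * ((2 : ℂ) • (V * hR S P * W) - (w : ℂ) • (1 : Matrix (Fin r) (Fin r) ℂ)) = 0 := by
    rw [e1, Matrix.transpose_smul, Matrix.smul_mul, Matrix.mul_smul, ← smul_add, hFh S P H.isHTw_id, smul_zero]
  have h1 := hSD.rank_neg43 hF1 hF2 hs ((2 * (m + k) - w : ℤ) : ℝ)
  rw [hE, C.rank, show -((2 * (m + k) - w : ℤ) : ℝ) = ((2 * (m - k) - w : ℤ) : ℝ) by rw [hm]; push_cast; ring, hE,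
    C.rank] at h1
  exact h1

/-- The block `e` is of orthogonal type and rank at least nine, and the conjugate block `f` has the Hodge numbers `t, h, t` in
the degrees `m + k`, `m`, `m - k`, `w = 2 m`, and no other ones, where `(t, h)` is not in the list `LT.Exc`. -/
def ThreeB (w : ℤ) (Q : Matrix n n ℚ) (P : ℤ → Matrix n n ℂ) (e f : Matrix n n ℂ) : Prop :=
  9 ≤ e.rank ∧ OrthB Q P e ∧ ∃ m k : ℤ, w = 2 * m ∧ (∀ p, p ≠ m + k → p ≠ m → p ≠ m - k → f * P p = 0) ∧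
    ¬ LT.Exc (f * P (m + k)).rank (f * P m).rank

theorem ThreeB.condL (H : IsHW w Q S P) {e : Matrix n n ℂ} (he : IsBlk P e) {σ : ℂ ≃+* ℂ}
    (hB : ThreeB w Q P e (e.map σ)) (hg : ∀ d : ℕ, (∀ p, d ∣ (e.map σ * P p).rank) → d = 1) :
    CondL (fun t h => t = 0 ∨ h = 0 ∨ LT.Exc t h) w Q S P e σ := by
  obtain ⟨h9, hO, m, k', hm, h0', hx'⟩ := hB
  have hO' := hO.aut43 σ
  have hf := he.aut σ
  have hsy := H.rank_refl43 hm hf hO' hg
  -- the sign of `k`
  obtain ⟨k, hk0, h0, hx⟩ : ∃ k : ℤ, 0 ≤ k ∧ (∀ p, p ≠ m + k → p ≠ m → p ≠ m - k → e.map σ * P p = 0) ∧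
      ¬ LT.Exc (e.map σ * P (m + k)).rank (e.map σ * P m).rank := by
    rcases le_total 0 k' with h1 | h1
    · exact ⟨k', h1, h0', hx'⟩
    · refine ⟨-k', by omega, fun p p1 p2 p3 => h0' p (by omega) p2 (by omega), ?_⟩
      rw [← sub_eq_add_neg, hsy k']
      exact hx'
  have hr0 : ∀ p, p ≠ m + k → p ≠ m → p ≠ m - k → (e.map σ * P p).rank = 0 := fun p p1 p2 p3 => by
    rw [h0 p p1 p2 p3, Matrix.rank_zero]
  have hre : (e.map σ).rank = e.rank := rank_aut σ he.idem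
  have hk : k ≠ 0 := by
    rintro rfl
    have h1 : ∀ p, p ≠ m → (e.map σ * P p).rank = 0 := fun p hp => hr0 p (by omega) hp (by omega)
    have h2 := hg (e.map σ * P m).rank fun p => by
      by_cases hp : p = m
      · rw [hp]
      · rw [h1 p hp]
        exact dvd_zero _
    have h3 := H.sum_blk14 hf
    have h4 : ∑ p ∈ S, (e.map σ * P p).rank ≤ 1 := by
      rw [← h2]
      by_cases hm' : m ∈ S
      · rw [Finset.sum_eq_single m (fun p _ hp => h1 p hp) (fun h => absurd hm' h)]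
      · rw [Finset.sum_eq_zero]
        · omega
        · intro p hp
          exact h1 p (fun h => hm' (h ▸ hp))
    omega
  have hkp : 0 < k := by omega
  have hN : Num3 m (e.map σ * P (m + k)).rank (e.map σ * P m).rank (fun p => (e.map σ * P p).rank) :=
    ⟨k, hkp, rfl, rfl, hsy k, hr0⟩
  have hsum := rank_num3 H hf hN
  have ht : (e.map σ * P (m + k)).rank ≠ 0 := by
    intro h1
    have h2 := hg (e.map σ * P m).rank fun p => by
      by_cases hp : p = m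
      · rw [hp]
      · have h3 : (e.map σ * P p).rank = 0 := by
          by_cases hp1 : p = m + k
          · rw [hp1, h1]
          · by_cases hp2 : p = m - k
            · rw [hp2, hsy k, h1]
            · exact hr0 p hp1 hp hp2
        rw [h3]
        exact dvd_zero _
    omega
  have hh : (e.map σ * P m).rank ≠ 0 := by
    intro h1
    have h2 := hg (e.map σ * P (m + k)).rank fun p => by
      by_cases hp1 : p = m + k
      · rw [hp1]
      · by_cases hp2 : p = m - k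
        · rw [hp2, hsy k]
        · have h3 : (e.map σ * P p).rank = 0 := by
            by_cases hp : p = m
            · rw [hp, h1]
            · exact hr0 p hp1 hp hp2
          rw [h3]
          exact dvd_zero _
    omega
  refine Or.inr ⟨m, _, _, hm, hO, by omega, hN, ?_⟩
  rintro (h1 | h1 | h1)
  · exact ht h1
  · exact hh h1
  · exact hx h1

end gen

variable {n : Type} [Fintype n] [DecidableEq n]
variable {w : ℤ} {Q : Matrix n n ℚ} {S : Finset ℤ} {P : ℤ → Matrix n n ℂ}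

/-- **The main theorem, with the list.** -/
theorem bl_fin43 (H : IsHW w Q S P)
    (hdom : ∀ e, IsBlk P e → 2 ≤ e.rank → (∀ σ : ℂ ≃+* ℂ, DomB w Q S P (e.map σ)) ∨
      ∃ σ : ℂ ≃+* ℂ, (∀ d : ℕ, (∀ p, d ∣ (e.map σ * P p).rank) → d = 1) ∧
        (DomB w Q S P (e.map σ) ∨ ThreeB w Q P e (e.map σ))) :
    (∀ g : GL n ℂ, InD Q S P (g : Matrix n n ℂ) → g ∈ MT S P) ∧
    (∀ g ∈ MT S P, ∀ h ∈ MT S P, InD Q S P ((g * h * g⁻¹ * h⁻¹ : GL n ℂ) : Matrix n n ℂ)) ∧
    (SelfDual Q P → ∀ g : GL n ℂ, g ∈ MT S P ↔ InGw w Q P (g : Matrix n n ℂ)) ∧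
    ∀ (ℓ : ℕ) [Fact ℓ.Prime] (ι : ℚ_[ℓ] →+* ℂ) (Γ : Subgroup (GL n ℚ_[ℓ])),
      IsGalA w Q S P (Γ.map (Matrix.GeneralLinearGroup.map ι)) →
      (∃ D : Subgroup (GL n ℚ), IsMonB Q S P D ∧ D.map (Matrix.GeneralLinearGroup.map (algebraMap ℚ ℚ_[ℓ])) ≤ Γ) ∨
      ((∀ e, IsBlk P e → 2 ≤ e.rank → ∃ σ : ℂ ≃+* ℂ, ∀ d : ℕ, (∀ p, d ∣ (e.map σ * P p).rank) → d = 1) ∧
        IsTateN S P (Γ.map (Matrix.GeneralLinearGroup.map ι))) →
      ∀ (a b : ℕ) (t : (Fin a ⊕ Fin b → n) → ℂ),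
        IsTateTensor (Γ.map (Matrix.GeneralLinearGroup.map ι)) a b t ↔ MTfix S P a b t := by
  refine bl_main43 goodL_exc H fun e he hr2 => ?_
  rcases hdom e he hr2 with h1 | ⟨σ, hg, h1 | h1⟩
  · exact Or.inl h1
  · exact Or.inr ⟨σ, Or.inl h1, hg⟩
  · exact Or.inr ⟨σ, h1.condL H he hg, hg⟩

end MH
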