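import Pool.Agent.Helper43.BL.CoreS
import Pool.Agent.Helper55.PG.ThreeK

/-!
Project BL (MP_b8862a_ag): the main theorem for blocks with a large Hodge number or of orthogonal type with three Hodge numbers.
-/

set_option linter.unusedSectionVars false
set_option linter.unusedVariables false

open Matrix Module GH

namespace MH

/-- The numbers `f` are `t, h, t` in the degrees `m + k, m, m - k`. -/
def Num3 (m : ℤ) (t h : ℕ) (f : ℤ → ℕ) : Prop :=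
  ∃ k : ℤ, 0 < k ∧ f (m + k) = t ∧ f m = h ∧ f (m - k) = t ∧ ∀ p, p ≠ m + k → p ≠ m → p ≠ m - k → f p = 0

section gen

variable {n : Type*} [Fintype n] [DecidableEq n]
variable {w : ℤ} {Q : Matrix n n ℚ} {S : Finset ℤ} {P : ℤ → Matrix n n ℂ} {Γ : Subgroup (GL n ℂ)}

/-- The condition at the automorphism `σ`: the conjugate block is large, or it is of orthogonal type with the Hodge numbers
`t, h, t`, with `2 t + h ≥ 9` and `(t, h)` not in the list `Bad`. -/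
def CondL (Bad : ℕ → ℕ → Prop) (w : ℤ) (Q : Matrix n n ℚ) (S : Finset ℤ) (P : ℤ → Matrix n n ℂ) (e : Matrix n n ℂ)
    (σ : ℂ ≃+* ℂ) : Prop :=
  DomB w Q S P (e.map σ) ∨ ∃ (m : ℤ) (t h : ℕ), w = 2 * m ∧ OrthB Q P e ∧ 9 ≤ 2 * t + h ∧
    Num3 m t h (fun p => (e.map σ * P p).rank) ∧ ¬ Bad t h

/-- `Bad` contains all the exceptions. -/
def GoodL (Bad : ℕ → ℕ → Prop) : Prop :=
  ∀ (m : ℤ) (r t h : ℕ) (f : ℤ → ℕ), Num3 m t h f → r = 2 * t + h → 9 ≤ r → ¬ Bad t h → CrO (2 * m) r f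

variable {Bad : ℕ → ℕ → Prop}

theorem rank_num3 (H : IsHW w Q S P) {e : Matrix n n ℂ} (he : IsBlk P e) {m : ℤ} {t h : ℕ}
    (hN : Num3 m t h (fun p => (e * P p).rank)) : e.rank = 2 * t + h := by
  classical
  obtain ⟨k, hk, h1, h2, h3, h4⟩ := hN
  simp only at h1 h2 h3 h4
  rw [← H.sum_blk14 he]
  have h5 : ∑ p ∈ S, (e * P p).rank = ∑ p ∈ S ∪ {m + k, m, m - k}, (e * P p).rank := by
    refine Finset.sum_subset Finset.subset_union_left fun p _ hp => ?_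
    exact H.supp_blk14 e p hp
  have h6 : ∑ p ∈ ({m + k, m, m - k} : Finset ℤ), (e * P p).rank = ∑ p ∈ S ∪ {m + k, m, m - k}, (e * P p).rank := by
    refine Finset.sum_subset Finset.subset_union_right fun p _ hp => ?_
    simp only [Finset.mem_insert, Finset.mem_singleton, not_or] at hp
    exact h4 p hp.1 hp.2.1 hp.2.2
  rw [h5, ← h6, Finset.sum_insert (by simp only [Finset.mem_insert, Finset.mem_singleton, not_or]; omega),
    Finset.sum_pair (by omega), h1, h2, h3]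
  ring

/-- the type of a large block with coprime numbers at one place -/
theorem IsHW.tyBN_dom43 (H : IsHW w Q S P) {e : Matrix n n ℂ} (he : IsBlk P e) (hr2 : 2 ≤ e.rank) {σ : ℂ ≃+* ℂ}
    (hD : DomB w Q S P (e.map σ)) (hg : ∀ d : ℕ, (∀ p, d ∣ (e.map σ * P p).rank) → d = 1) : TyBN Q S P e := by
  have hf := he.aut σ
  obtain ⟨r, W, V, hVW, hWV⟩ := exists_coord48 hf.idem
  have hrr : (e.map σ).rank = r := _root_.MH.blk_rank hf hVW hWV
  have hr : 2 ≤ r := by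
    rw [← hrr, rank_aut σ he.idem]
    exact hr2
  have h1 := IsGalU.tyN H H.isGalU_MT hf hVW hWV hr H.isHTw_id hg hD
  rw [H.cpS_LG_MT hVW] at h1
  have h2 : TyBN Q S P (e.map σ) := ⟨r, W, V, hVW, hWV, h1⟩
  have h3 := h2.aut σ.symm
  rwa [map_symmσ'] at h3

/-- **the blocks are of full type** -/
theorem IsHW.tyBN_bl43 (H : IsHW w Q S P) (hB : GoodL Bad) {e : Matrix n n ℂ} (he : IsBlk P e) (hr2 : 2 ≤ e.rank)
    (hC : (∀ σ : ℂ ≃+* ℂ, DomB w Q S P (e.map σ)) ∨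
      ∃ σ : ℂ ≃+* ℂ, CondL Bad w Q S P e σ ∧ ∀ d : ℕ, (∀ p, d ∣ (e.map σ * P p).rank) → d = 1) : TyBN Q S P e := by
  rcases hC with hC | ⟨σ, hD | ⟨m, t, h, hm, hO, h9, hN, hb⟩, hg⟩
  · exact H.tyBN_orbit hC he hr2
  · exact H.tyBN_dom43 he hr2 hD hg
  · refine H.tyBN_crO43 hm hO he hr2 hg ?_
    have h1 := rank_num3 H (he.aut σ) hN
    rw [rank_aut σ he.idem] at h1
    rw [hm]
    exact hB m _ t h _ hN h1 (by omega) hb

end gen

variable {n : Type} [Fintype n] [DecidableEq n]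
variable {w : ℤ} {Q : Matrix n n ℚ} {S : Finset ℤ} {P : ℤ → Matrix n n ℂ} {Bad : ℕ → ℕ → Prop}

/-- **The main theorem.** -/
theorem bl_main43 (hB : GoodL Bad) (H : IsHW w Q S P)
    (hdom : ∀ e, IsBlk P e → 2 ≤ e.rank → (∀ σ : ℂ ≃+* ℂ, DomB w Q S P (e.map σ)) ∨
      ∃ σ : ℂ ≃+* ℂ, CondL Bad w Q S P e σ ∧ ∀ d : ℕ, (∀ p, d ∣ (e.map σ * P p).rank) → d = 1) :
    (∀ g : GL n ℂ, InD Q S P (g : Matrix n n ℂ) → g ∈ MT S P) ∧
    (∀ g ∈ MT S P, ∀ h ∈ MT S P, InD Q S P ((g * h * g⁻¹ * h⁻¹ : GL n ℂ) : Matrix n n ℂ)) ∧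
    (SelfDual Q P → ∀ g : GL n ℂ, g ∈ MT S P ↔ InGw w Q P (g : Matrix n n ℂ)) ∧
    ∀ (ℓ : ℕ) [Fact ℓ.Prime] (ι : ℚ_[ℓ] →+* ℂ) (Γ : Subgroup (GL n ℚ_[ℓ])),
      IsGalA w Q S P (Γ.map (Matrix.GeneralLinearGroup.map ι)) →
      (∃ D : Subgroup (GL n ℚ), IsMonB Q S P D ∧ D.map (Matrix.GeneralLinearGroup.map (algebraMap ℚ ℚ_[ℓ])) ≤ Γ) ∨
      ((∀ e, IsBlk P e → 2 ≤ e.rank → ∃ σ : ℂ ≃+* ℂ, ∀ d : ℕ, (∀ p, d ∣ (e.map σ * P p).rank) → d = 1) ∧
        IsTateN S P (Γ.map (Matrix.GeneralLinearGroup.map ι))) →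
      ∀ (a b : ℕ) (t : (Fin a ⊕ Fin b → n) → ℂ),
        IsTateTensor (Γ.map (Matrix.GeneralLinearGroup.map ι)) a b t ↔ MTfix S P a b t := by
  have hty : ∀ f, IsBlk P f → 2 ≤ f.rank → TyBN Q S P f := fun f hf hf2 => H.tyBN_bl43 hB hf hf2 (hdom f hf hf2)
  obtain ⟨k1, k2, k3, k4⟩ := at_of_tyA H hty
  refine ⟨k1, k2, k3, fun ℓ _ ι Γ G hAB => k4 _ G ?_⟩
  rcases hAB with ⟨D, hD, hle⟩ | ⟨hgcd, hT⟩
  · refine Or.inl ⟨D, hD, ?_⟩
    refine le_trans (le_of_eq ?_) (Subgroup.map_mono hle)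
    rw [mapC, Subgroup.map_map]
    congr 1
    ext g i j
    simp [Matrix.GeneralLinearGroup.map_apply]
  · refine Or.inr ⟨hT, fun e he r W V hVW hWV hr => ?_⟩
    have hre : e.rank = r := _root_.MH.blk_rank he hVW hWV
    have hnum : ∀ (σ : ℂ ≃+* ℂ) (S' : Finset ℤ) (R : ℤ → Matrix n n ℂ),
        IsHTs w Q S P (Γ.map (Matrix.GeneralLinearGroup.map ι)) σ.symm S' R →
        (fun p => (e * R p).rank) = fun p => (e.map σ * P p).rank := by
      intro σ S' R hR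
      funext p
      rw [hR.rank e he p, H.rank_symm43 he]
    rcases hdom e he (by omega) with hall | ⟨σ, hC, hg⟩
    · obtain ⟨σ, hg⟩ := hgcd e he (by omega)
      obtain ⟨S', R, hR⟩ := G.conj σ.symm
      refine (G.toN.toU H hT).tyN H he hVW hWV hr hR.toIsHTw (fun d hd => hg d fun p => ?_)
        (hR.domR_one43 H he (hall σ))
      rw [← congrFun (hnum σ S' R hR) p]
      exact hd p
    · obtain ⟨S', R, hR⟩ := G.conj σ.symm
      have hg' : ∀ d : ℕ, (∀ p, d ∣ (e * R p).rank) → d = 1 := fun d hd => hg d fun p => by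
        rw [← congrFun (hnum σ S' R hR) p]
        exact hd p
      rcases hC with hD | ⟨m, t, h, hm, hO, h9, hN, hb⟩
      · exact (G.toN.toU H hT).tyN H he hVW hWV hr hR.toIsHTw hg' (hR.domR_one43 H he hD)
      · refine (G.toN.toU H hT).full_crO43 H he hVW hWV hr hR.toIsHTw hg' hm hO ?_
        rw [hnum σ S' R hR, hm]
        have h1 := rank_num3 H (he.aut σ) hN
        rw [rank_aut σ he.idem, hre] at h1
        exact hB m _ t h _ hN h1 (by omega) hb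

end MH
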